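import Mathlib

namespace Pool.Agent.Fdf3ca

open Filter Topology Set

/-- The open unit disc `𝔻`, as a topological space. -/
abbrev Disc : Type := ↥(Metric.ball (0 : ℂ) 1)

/-- `f` belongs to `H(𝔻)`: it is the restriction to `𝔻` of a function holomorphic on `𝔻`. -/
def Holo (f : Disc → ℂ) : Prop :=
  ∃ F : ℂ → ℂ, DifferentiableOn ℂ F (Metric.ball 0 1) ∧ ∀ z : Disc, F z = f z

/-- `f` is strongly annular: `limsup_{r → 1⁻} min_{|z| = r} |f z| = +∞`
(the limsup is taken in `[0, +∞]`). -/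
def StronglyAnnular (f : Disc → ℂ) : Prop :=
  limsup (fun r : ℝ => ⨅ z : {z : Disc // ‖(z : ℂ)‖ = r}, ‖f z‖ₑ) (𝓝[<] (1 : ℝ)) = ⊤

end Pool.Agent.Fdf3ca
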