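import Mathlib

namespace Pool.Agent.Fdf3ca

open Filter Topology MeasureTheory Set

/-- existence of P-indices -/
lemma exists_P (b : ℕ → ℂ) (c : ℝ) (hc : 0 < c)
    (hgrow : ∀ N : ℕ, ∃ n, N ≤ n ∧ c * Real.exp (3 ^ n) ≤ ‖b n‖) (C : ℝ) (N : ℕ) :
    ∃ n, N < n ∧ (∀ m < n, Real.exp (32 * 2 ^ n) * ‖b m‖ < ‖b n‖) ∧
      Real.exp (32 * 2 ^ n) * C < ‖b n‖ := by
  -- an index with large coefficient
  have h3 : Tendsto (fun n : ℕ => c * Real.exp ((3 : ℝ) ^ n)) atTop atTop := by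
    apply Tendsto.const_mul_atTop hc
    exact Real.tendsto_exp_atTop.comp (tendsto_pow_atTop_atTop_of_one_lt (by norm_num))
  obtain ⟨N1, hN1⟩ := (h3.eventually_gt_atTop C).exists_forall_of_atTop
  obtain ⟨n1, hn1, hb1⟩ := hgrow (max N N1)
  have hC : C < ‖b n1‖ := lt_of_lt_of_le (hN1 n1 (le_trans (le_max_right _ _) hn1)) hb1
  by_contra hcon
  push Not at hcon
  -- bound
  obtain ⟨S, hS⟩ : ∃ S : ℝ, ∀ m ≤ n1, ‖b m‖ ≤ S := by
    refine ⟨∑ m ∈ Finset.range (n1 + 1), ‖b m‖, fun m hm => ?_⟩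
    exact Finset.single_le_sum (f := fun m => ‖b m‖) (fun i _ => norm_nonneg _)
      (Finset.mem_range.mpr (by omega))
  have hS0 : 0 ≤ S := le_trans (norm_nonneg _) (hS 0 (by omega))
  have key : ∀ n, n1 ≤ n → ∀ m ≤ n, ‖b m‖ ≤ S * Real.exp (64 * 2 ^ n) := by
    intro n hn
    induction n, hn using Nat.le_induction with
    | base =>
      intro m hm
      have h1 : (1 : ℝ) ≤ Real.exp (64 * 2 ^ n1) := Real.one_le_exp (by positivity)
      calc ‖b m‖ ≤ S := hS m hm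
        _ = S * 1 := by ring
        _ ≤ S * Real.exp (64 * 2 ^ n1) := by gcongr
    | succ n hn ih =>
      have hmono : S * Real.exp (64 * 2 ^ n) ≤ S * Real.exp (64 * 2 ^ (n + 1)) := by
        gcongr
        · norm_num
        · omega
      intro m hm
      rcases Nat.lt_or_ge m (n + 1) with h | h
      · exact le_trans (ih m (by omega)) hmono
      · have hm' : m = n + 1 := by omega
        subst hm'
        by_contra hlt
        push Not at hlt
        have hP : ∀ m' < n + 1, Real.exp (32 * 2 ^ (n + 1)) * ‖b m'‖ < ‖b (n + 1)‖ := by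
          intro m' hm'
          refine lt_of_le_of_lt ?_ hlt
          calc Real.exp (32 * 2 ^ (n + 1)) * ‖b m'‖
              ≤ Real.exp (32 * 2 ^ (n + 1)) * (S * Real.exp (64 * 2 ^ n)) := by
                gcongr
                exact ih m' (by omega)
            _ = S * Real.exp (64 * 2 ^ (n + 1)) := by
                rw [mul_comm, mul_assoc, ← Real.exp_add]
                congr 2
                ring
        have h2 := hcon (n + 1) (by have := le_trans (le_max_left N N1) hn1; omega) hP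
        have h3 : Real.exp (32 * 2 ^ (n + 1)) * C < ‖b (n + 1)‖ := by
          calc Real.exp (32 * 2 ^ (n + 1)) * C < Real.exp (32 * 2 ^ (n + 1)) * ‖b n1‖ := by
                gcongr
            _ < ‖b (n + 1)‖ := hP n1 (by omega)
        linarith
  -- contradiction
  have h4 : Tendsto (fun n : ℕ => c * Real.exp ((3 : ℝ) ^ n - 64 * 2 ^ n)) atTop atTop := by
    apply Tendsto.const_mul_atTop hc
    refine Real.tendsto_exp_atTop.comp ?_
    have h5 : Tendsto (fun n : ℕ => (2 : ℝ) ^ n * ((3 / 2) ^ n - 64)) atTop atTop := by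
      apply Tendsto.atTop_mul_atTop₀
      · exact tendsto_pow_atTop_atTop_of_one_lt (by norm_num)
      · exact tendsto_atTop_add_const_right _ _ (tendsto_pow_atTop_atTop_of_one_lt (by norm_num))
    refine h5.congr (fun n => ?_)
    rw [div_pow]
    field_simp
  obtain ⟨N2, hN2⟩ := (h4.eventually_gt_atTop S).exists_forall_of_atTop
  obtain ⟨n2, hn2, hb2⟩ := hgrow (max n1 N2)
  have h6 := hN2 n2 (le_trans (le_max_right _ _) hn2)
  have h7 := key n2 (le_trans (le_max_left _ _) hn2) n2 le_rfl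
  have h8 : c * Real.exp ((3 : ℝ) ^ n2 - 64 * 2 ^ n2) * Real.exp (64 * 2 ^ n2) = c * Real.exp (3 ^ n2) := by
    rw [mul_assoc, ← Real.exp_add]; congr 2; ring
  have h9 : S * Real.exp (64 * 2 ^ n2) < c * Real.exp ((3 : ℝ) ^ n2 - 64 * 2 ^ n2) * Real.exp (64 * 2 ^ n2) := by
    gcongr
  linarith

/-- The bad set of `τ`'s attached to the pair `(p, q)`. -/
def J (b : ℕ → ℂ) (p q : ℕ) : Set ℝ :=
  {τ | |Real.log ‖b p‖ - Real.log ‖b q‖ - (8 ^ p - 8 ^ q) * τ| ≤ p + q + 3}

lemma J_volume (b : ℕ → ℂ) (p q : ℕ) (h : q < p) :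
    volume (J b p q) ≤ ENNReal.ofReal (3 * (2 * p + 3) / 8 ^ p) := by
  set A := Real.log ‖b p‖ - Real.log ‖b q‖
  set D : ℝ := 8 ^ p - 8 ^ q with hD
  have hDp : (7 / 8 : ℝ) * 8 ^ p ≤ D := by
    have : (8 : ℝ) ^ q * 8 ≤ 8 ^ p := by
      rw [← pow_succ]; gcongr
      · norm_num
      · omega
    rw [hD]; linarith
  have hD0 : 0 < D := lt_of_lt_of_le (by positivity) hDp
  have hsub : J b p q ⊆ Icc (A / D - (p + q + 3) / D) (A / D + (p + q + 3) / D) := by
    intro τ hτ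
    have hτ' : |A - D * τ| ≤ p + q + 3 := hτ
    rw [abs_le] at hτ'
    constructor
    · rw [← sub_div, div_le_iff₀ hD0]; nlinarith [hτ'.1, hτ'.2]
    · rw [← add_div, le_div_iff₀ hD0]; nlinarith [hτ'.1, hτ'.2]
  refine (measure_mono hsub).trans ?_
  rw [Real.volume_Icc]
  apply ENNReal.ofReal_le_ofReal
  have hq : (q : ℝ) ≤ p := by exact_mod_cast h.le
  have hq1 : (q : ℝ) + 1 ≤ p := by exact_mod_cast h
  have e : A / D + (p + q + 3) / D - (A / D - (p + q + 3) / D) = 2 * (p + q + 3) / D := by ring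
  rw [e, div_le_div_iff₀ hD0 (by positivity)]
  have h8 : (0 : ℝ) < 8 ^ p := by positivity
  have h9 : 2 * ((p : ℝ) + q + 3) * 8 ^ p ≤ 2 * (2 * p + 2) * 8 ^ p :=
    mul_le_mul_of_nonneg_right (by linarith) h8.le
  have h10 : 3 * (2 * (p : ℝ) + 3) * ((7 / 8 : ℝ) * 8 ^ p) ≤ 3 * (2 * (p : ℝ) + 3) * D := by
    gcongr
  have hp0 : (0 : ℝ) ≤ p := Nat.cast_nonneg p
  nlinarith

lemma aux_poly (p : ℕ) : (p : ℝ) * (3 * (2 * p + 3)) ≤ 16 * 2 ^ p := by
  have h : ∀ p : ℕ, p * (3 * (2 * p + 3)) ≤ 16 * 2 ^ p := by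
    intro p
    have h0 : p ≤ 5 ∨ 5 < p := by omega
    rcases h0 with h0 | h0
    · interval_cases p <;> norm_num
    · induction p, h0 using Nat.le_induction with
      | base => norm_num
      | succ n hn ih =>
        rw [pow_succ]
        nlinarith
  exact_mod_cast h p

lemma B_volume (b : ℕ → ℂ) (p : ℕ) :
    volume (⋃ q ∈ Finset.range p, J b p q) ≤ ENNReal.ofReal (16 * (1 / 4) ^ p) := by
  refine (measure_biUnion_finset_le _ _).trans ?_
  calc ∑ q ∈ Finset.range p, volume (J b p q)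
      ≤ ∑ q ∈ Finset.range p, ENNReal.ofReal (3 * (2 * p + 3) / 8 ^ p) := by
        apply Finset.sum_le_sum
        intro q hq
        exact J_volume b p q (Finset.mem_range.mp hq)
    _ = ENNReal.ofReal (p * (3 * (2 * p + 3) / 8 ^ p)) := by
        rw [Finset.sum_const, Finset.card_range, nsmul_eq_mul, ENNReal.ofReal_mul (by positivity),
          ENNReal.ofReal_natCast]
    _ ≤ ENNReal.ofReal (16 * (1 / 4) ^ p) := by
        apply ENNReal.ofReal_le_ofReal
        have h := aux_poly p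
        have e : (16 : ℝ) * (1 / 4) ^ p = 16 * 2 ^ p / 8 ^ p := by
          have : (1 / 4 : ℝ) ^ p = 2 ^ p / 8 ^ p := by
            rw [← div_pow]; norm_num
          rw [this]; ring
        rw [e, ← mul_div_assoc]
        gcongr

lemma exists_good (b : ℕ → ℂ) (n : ℕ) :
    ∃ τ : ℝ, 0 < τ ∧ τ ≤ 32 * (1 / 4) ^ n ∧ ∀ p, n ≤ p → ∀ q < p, τ ∉ J b p q := by
  by_contra hcon
  push Not at hcon
  have hsub : Ioc (0 : ℝ) (32 * (1 / 4) ^ n) ⊆ ⋃ i : ℕ, ⋃ q ∈ Finset.range (n + i), J b (n + i) q := by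
    intro τ hτ
    obtain ⟨p, hp, q, hq, h⟩ := hcon τ hτ.1 hτ.2
    obtain ⟨i, rfl⟩ := Nat.exists_eq_add_of_le hp
    simp only [mem_iUnion]
    exact ⟨i, q, Finset.mem_range.mpr hq, h⟩
  have h1 := measure_mono (μ := volume) hsub
  have h2 := measure_iUnion_le (μ := volume) (fun i : ℕ => ⋃ q ∈ Finset.range (n + i), J b (n + i) q)
  have h3 : ∑' i : ℕ, volume (⋃ q ∈ Finset.range (n + i), J b (n + i) q) ≤
      ∑' i : ℕ, ENNReal.ofReal (16 * (1 / 4) ^ (n + i)) :=
    ENNReal.tsum_le_tsum (fun i => B_volume b (n + i))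
  have hsum : Summable (fun i : ℕ => (16 : ℝ) * (1 / 4) ^ (n + i)) := by
    have : (fun i : ℕ => (16 : ℝ) * (1 / 4) ^ (n + i)) = fun i => (16 * (1 / 4) ^ n) * (1 / 4) ^ i := by
      funext i; rw [pow_add]; ring
    rw [this]
    exact (summable_geometric_of_lt_one (by norm_num) (by norm_num)).mul_left _
  have h4 : ∑' i : ℕ, ENNReal.ofReal (16 * (1 / 4) ^ (n + i)) =
      ENNReal.ofReal (16 * (1 / 4) ^ n * (4 / 3)) := by
    rw [← ENNReal.ofReal_tsum_of_nonneg (fun i => by positivity) hsum]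
    congr 1
    have : (fun i : ℕ => (16 : ℝ) * (1 / 4) ^ (n + i)) = fun i => (16 * (1 / 4) ^ n) * (1 / 4) ^ i := by
      funext i; rw [pow_add]; ring
    rw [this, tsum_mul_left, tsum_geometric_of_lt_one (by norm_num) (by norm_num)]
    norm_num
  have h5 : ENNReal.ofReal (32 * (1 / 4) ^ n) ≤ ENNReal.ofReal (16 * (1 / 4) ^ n * (4 / 3)) := by
    calc ENNReal.ofReal (32 * (1 / 4) ^ n) = volume (Ioc (0 : ℝ) (32 * (1 / 4) ^ n)) := by
          rw [Real.volume_Ioc, sub_zero]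
      _ ≤ _ := h1.trans (h2.trans (h3.trans h4.le))
  rw [ENNReal.ofReal_le_ofReal_iff (by positivity)] at h5
  have : (0 : ℝ) < (1 / 4) ^ n := by positivity
  linarith

/-- maximum of a nonnegative sequence tending to `0` -/
lemma exists_max_term (t : ℕ → ℝ) (ht : Tendsto t atTop (𝓝 0)) (n : ℕ) (hn : 0 < t n) :
    ∃ M, ∀ m, t m ≤ t M := by
  obtain ⟨N, hN⟩ := ((tendsto_order.1 ht).2 _ hn).exists_forall_of_atTop
  obtain ⟨M, hM, hmax⟩ := Finset.exists_max_image (Finset.range (max N n + 1)) t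
    ⟨0, Finset.mem_range.mpr (by omega)⟩
  refine ⟨M, fun m => ?_⟩
  rcases Nat.lt_or_ge m (max N n + 1) with h | h
  · exact hmax m (Finset.mem_range.mpr h)
  · have h1 := hN m (le_trans (le_max_left N n) (by omega))
    have h2 := hmax n (Finset.mem_range.mpr (by omega))
    linarith

lemma dominant (b : ℕ → ℂ) (hb : ∀ z : ℂ, ‖z‖ < 1 → Summable (fun n => b n * z ^ (8 ^ n)))
    (n : ℕ) (hn : 0 < n) (hP : ∀ m < n, Real.exp (32 * 2 ^ n) * ‖b m‖ < ‖b n‖) :
    ∃ τ : ℝ, 0 < τ ∧ τ ≤ 32 * (1 / 4) ^ n ∧ ∀ z : ℂ, ‖z‖ = Real.exp (-τ) →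
      ‖b n‖ * Real.exp (-(32 * 2 ^ n)) / 2 ≤ ‖∑' n, b n * z ^ (8 ^ n)‖ := by
  obtain ⟨τ, hτ0, hτ1, hτ⟩ := exists_good b n
  refine ⟨τ, hτ0, hτ1, ?_⟩
  set t : ℕ → ℝ := fun m => ‖b m‖ * Real.exp (-τ) ^ (8 ^ m) with ht
  have hr1 : Real.exp (-τ) < 1 := by rw [Real.exp_lt_one_iff]; linarith
  have hnorm : ∀ z : ℂ, ‖z‖ = Real.exp (-τ) → ∀ m, ‖b m * z ^ (8 ^ m)‖ = t m := by
    intro z hz m
    rw [norm_mul, norm_pow, hz]
  have hs : Summable t := by
    have h1 := hb (Real.exp (-τ) : ℂ) (by rw [Complex.norm_real, Real.norm_eq_abs, abs_of_pos (Real.exp_pos _)]; exact hr1)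
    have h2 := h1.norm
    refine h2.congr (fun m => ?_)
    apply hnorm
    rw [Complex.norm_real, Real.norm_eq_abs, abs_of_pos (Real.exp_pos _)]
  have hbn : 0 < ‖b n‖ := lt_of_le_of_lt (by positivity) (hP 0 hn)
  have htn : 0 < t n := by positivity
  obtain ⟨M, hM⟩ := exists_max_term t hs.tendsto_atTop_zero n htn
  -- lower bound of t n
  have htn' : ‖b n‖ * Real.exp (-(32 * 2 ^ n)) ≤ t n := by
    rw [ht]
    simp only
    rw [← Real.exp_nat_mul]
    gcongr
    push_cast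
    have h8 : (8 : ℝ) ^ n * (1 / 4) ^ n = 2 ^ n := by rw [← mul_pow]; norm_num
    have : (8 : ℝ) ^ n * τ ≤ 8 ^ n * (32 * (1 / 4) ^ n) := by gcongr
    have h9 : (8 : ℝ) ^ n * (32 * (1 / 4) ^ n) = 32 * 2 ^ n := by rw [← h8]; ring
    linarith
  have hMn : n ≤ M := by
    by_contra h
    push Not at h
    have h1 := hP M h
    have h2 : t M ≤ ‖b M‖ := by
      rw [ht]
      simp only
      have : Real.exp (-τ) ^ (8 ^ M) ≤ 1 := pow_le_one₀ (Real.exp_pos _).le hr1.le
      calc ‖b M‖ * Real.exp (-τ) ^ (8 ^ M) ≤ ‖b M‖ * 1 := by gcongr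
        _ = ‖b M‖ := mul_one _
    have h3 : ‖b M‖ < ‖b n‖ * Real.exp (-(32 * 2 ^ n)) := by
      rw [Real.exp_neg, ← div_eq_mul_inv, lt_div_iff₀ (Real.exp_pos _), mul_comm]
      exact h1
    have := hM n
    linarith
  have htM : 0 < t M := lt_of_lt_of_le htn (hM n)
  have hbM : ‖b M‖ ≠ 0 := by
    intro h
    rw [ht] at htM
    simp [h] at htM
  -- comparison
  have hlog : ∀ m, ‖b m‖ ≠ 0 → Real.log (t m) = Real.log ‖b m‖ - 8 ^ m * τ := by
    intro m hm
    rw [ht]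
    simp only
    rw [Real.log_mul hm (pow_ne_zero _ (Real.exp_pos _).ne'), Real.log_pow, Real.log_exp]
    push_cast
    ring
  have hcomp : ∀ m, m ≠ M → t m ≤ t M * (1 / 4 * (1 / 2) ^ m) := by
    intro m hm
    by_cases hbm : ‖b m‖ = 0
    · have : t m = 0 := by rw [ht]; simp [hbm]
      rw [this]; positivity
    have htm : 0 < t m := by
      rw [ht]
      have : 0 < ‖b m‖ := lt_of_le_of_ne (norm_nonneg _) (Ne.symm hbm)
      positivity
    have hle : Real.log (t m) ≤ Real.log (t M) := Real.log_le_log htm (hM m)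
    have hgap : Real.log (t m) ≤ Real.log (t M) - (m + 3) := by
      rcases Nat.lt_or_gt_of_ne hm with h | h
      · have h1 := hτ M hMn m h
        simp only [J, mem_ofPred_eq, not_le] at h1
        have e : Real.log ‖b M‖ - Real.log ‖b m‖ - (8 ^ M - 8 ^ m) * τ = Real.log (t M) - Real.log (t m) := by
          rw [hlog M hbM, hlog m hbm]; ring
        rw [e, abs_of_nonneg (by linarith)] at h1
        have : (0 : ℝ) ≤ M := Nat.cast_nonneg M
        linarith
      · have h1 := hτ m (by omega) M h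
        simp only [J, mem_ofPred_eq, not_le] at h1
        have e : Real.log ‖b m‖ - Real.log ‖b M‖ - (8 ^ m - 8 ^ M) * τ = -(Real.log (t M) - Real.log (t m)) := by
          rw [hlog M hbM, hlog m hbm]; ring
        rw [e, abs_neg, abs_of_nonneg (by linarith)] at h1
        have : (0 : ℝ) ≤ M := Nat.cast_nonneg M
        linarith
    have h2 : t m ≤ t M * Real.exp (-(m + 3)) := by
      calc t m = Real.exp (Real.log (t m)) := (Real.exp_log htm).symm
        _ ≤ Real.exp (Real.log (t M) + -(m + 3)) := Real.exp_le_exp.mpr (by linarith)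
        _ = t M * Real.exp (-(m + 3)) := by rw [Real.exp_add, Real.exp_log htM]
    have h3 : Real.exp (-((m : ℝ) + 3)) ≤ 1 / 4 * (1 / 2) ^ m := by
      have h4 : Real.exp (-1) ≤ 1 / 2 := by
        have := Real.exp_one_gt_d9
        rw [Real.exp_neg, inv_eq_one_div]
        apply one_div_le_one_div_of_le (by norm_num)
        linarith
      have h5 : Real.exp (-((m : ℝ) + 3)) = Real.exp (-1) ^ (m + 3) := by
        rw [← Real.exp_nat_mul]; push_cast; ring_nf
      rw [h5]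
      calc Real.exp (-1) ^ (m + 3) ≤ (1 / 2) ^ (m + 3) := by
            gcongr
        _ = 1 / 8 * (1 / 2) ^ m := by rw [pow_add]; ring
        _ ≤ 1 / 4 * (1 / 2) ^ m := by gcongr; norm_num
    calc t m ≤ t M * Real.exp (-(m + 3)) := h2
      _ ≤ t M * (1 / 4 * (1 / 2) ^ m) := by gcongr
  intro z hz
  have hz1 : ‖z‖ < 1 := by rw [hz]; exact hr1
  have hsz := hb z hz1
  rw [hsz.tsum_eq_add_tsum_ite M]
  have hrest : ‖∑' m, (if m = M then 0 else b m * z ^ (8 ^ m))‖ ≤ t M / 2 := by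
    have hg : HasSum (fun m : ℕ => t M * (1 / 4 * (1 / 2) ^ m)) (t M * (1 / 4 * 2)) :=
      (hasSum_geometric_two.mul_left (1 / 4)).mul_left _
    have h1 := tsum_of_norm_bounded (f := fun m => (if m = M then 0 else b m * z ^ (8 ^ m))) hg (by
      intro m
      by_cases h : m = M
      · simp only [h, if_true, norm_zero]; positivity
      · simp only [h, if_false]
        rw [hnorm z hz m]
        exact hcomp m h)
    linarith
  have h1 : ‖b M * z ^ (8 ^ M)‖ = t M := hnorm z hz M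
  have h2 := norm_sub_le_norm_add (b M * z ^ (8 ^ M)) (∑' m, (if m = M then 0 else b m * z ^ (8 ^ m)))
  have h3 := hM n
  have h4 : ‖b M * z ^ (8 ^ M) + ∑' m, (if m = M then 0 else b m * z ^ (8 ^ m))‖ ≥ t M / 2 := by
    have := norm_sub_norm_le (b M * z ^ (8 ^ M)) (-(∑' m, (if m = M then 0 else b m * z ^ (8 ^ m))))
    rw [norm_neg, sub_neg_eq_add, h1] at this
    linarith
  linarith

theorem annular (b : ℕ → ℂ) (hb : ∀ z : ℂ, ‖z‖ < 1 → Summable (fun n => b n * z ^ (8 ^ n)))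
    (c : ℝ) (hc : 0 < c) (hgrow : ∀ N : ℕ, ∃ n, N ≤ n ∧ c * Real.exp (3 ^ n) ≤ ‖b n‖)
    (C ρ : ℝ) (hρ : ρ < 1) :
    ∃ r, ρ < r ∧ 0 < r ∧ r < 1 ∧ ∀ z : ℂ, ‖z‖ = r → C ≤ ‖∑' n, b n * z ^ (8 ^ n)‖ := by
  have h1 : Tendsto (fun n : ℕ => Real.exp (-(32 * (1 / 4 : ℝ) ^ n))) atTop (𝓝 1) := by
    have h2 : Tendsto (fun n : ℕ => -(32 * (1 / 4 : ℝ) ^ n)) atTop (𝓝 0) := by
      have := ((tendsto_pow_atTop_nhds_zero_of_lt_one (r := (1 / 4 : ℝ)) (by norm_num) (by norm_num)).const_mul 32).neg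
      simpa using this
    have h3 := (Real.continuous_exp.tendsto 0).comp h2
    rw [Real.exp_zero] at h3
    exact h3
  obtain ⟨N, hN⟩ := ((tendsto_order.1 h1).1 ρ hρ).exists_forall_of_atTop
  obtain ⟨n, hn, hP, hC⟩ := exists_P b c hc hgrow (2 * C) N
  obtain ⟨τ, hτ0, hτ1, h⟩ := dominant b hb n (by omega) hP
  refine ⟨Real.exp (-τ), ?_, Real.exp_pos _, by rw [Real.exp_lt_one_iff]; linarith, ?_⟩
  · have h2 := hN n hn.le
    refine lt_of_lt_of_le h2 ?_
    apply Real.exp_le_exp.mpr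
    linarith
  · intro z hz
    refine le_trans ?_ (h z hz)
    rw [Real.exp_neg, ← div_eq_mul_inv, div_div, le_div_iff₀ (by positivity)]
    linarith

end Pool.Agent.Fdf3ca
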