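import Mathlib
import Pool.Agent.Fdf3ca.Defs
import Pool.Agent.Fdf3ca.Main1

namespace Pool.Agent.Fdf3ca

open Filter Topology Set

/-- `H(𝔻)` as a subspace of `C(𝔻, ℂ)`. -/
def HD : Submodule ℂ C(Disc, ℂ) where
  carrier := {f | ∃ F : ℂ → ℂ, DifferentiableOn ℂ F (Metric.ball 0 1) ∧ ∀ z : Disc, F z = f z}
  add_mem' := by
    rintro f g ⟨F, hF, hFf⟩ ⟨G, hG, hGg⟩
    exact ⟨F + G, hF.add hG, fun z => by simp [hFf z, hGg z]⟩
  zero_mem' := ⟨0, differentiableOn_const 0, fun z => by simp⟩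
  smul_mem' := by
    rintro c f ⟨F, hF, hFf⟩
    exact ⟨c • F, hF.const_smul c, fun z => by simp [hFf z]⟩

lemma coeff_unique (F : ℂ → ℂ) (α : ℕ → ℂ)
    (h : ∀ z : ℂ, ‖z‖ < 1 → HasSum (fun j => α j * z ^ j) (F z)) (j : ℕ) :
    iteratedDeriv j F 0 = (j.factorial : ℂ) * α j := by
  have hp : HasFPowerSeriesOnBall F (FormalMultilinearSeries.ofScalars ℂ α) 0 1 :=
    { r_le := by
        refine ENNReal.le_of_forall_nnreal_lt (fun r hr => ?_)
        have hr1 : (r : ℝ) < 1 := by exact_mod_cast hr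
        apply FormalMultilinearSeries.le_radius_of_summable_norm
        have h1 := (h ((r : ℝ) : ℂ) (by
          rw [Complex.norm_real, Real.norm_eq_abs, abs_of_nonneg (NNReal.coe_nonneg r)]; exact hr1)).summable.norm
        refine h1.congr (fun n => ?_)
        rw [FormalMultilinearSeries.ofScalars_norm, norm_mul, norm_pow]
        congr 2
        rw [Complex.norm_real, Real.norm_eq_abs, abs_of_nonneg (NNReal.coe_nonneg r)]
      r_pos := one_pos
      hasSum := by
        intro y hy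
        have hy' : ‖y‖ < 1 := by
          rw [Metric.mem_eball, edist_zero_right] at hy
          have : (‖y‖ₑ) < 1 := hy
          rw [← ofReal_norm, ← ENNReal.ofReal_one] at this
          exact (ENNReal.ofReal_lt_ofReal_iff one_pos).1 this
        have h1 := h y hy'
        rw [zero_add]
        refine h1.congr_fun (fun n => ?_)
        rw [FormalMultilinearSeries.ofScalars_apply_eq]
        simp }
  have h2 := hp.factorial_smul 1 j
  rw [iteratedDeriv_eq_iteratedFDeriv, ← h2, FormalMultilinearSeries.ofScalars_apply_eq]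
  simp

lemma inj8 : Function.Injective (fun n : ℕ => 8 ^ n) := Nat.pow_right_injective (by norm_num)

/-- coefficients of the gap series -/
noncomputable def B (c : ℕ → ℂ) (n : ℕ) : ℂ := c n.unpair.1 * ((Real.exp (3 ^ n) : ℝ) : ℂ)

/-- coefficients of the Taylor series -/
noncomputable def Al (c : ℕ → ℂ) : ℕ → ℂ := Function.extend (fun n : ℕ => 8 ^ n) (B c) 0

/-- representation as a gap series -/
def Rep (c : ℕ → ℂ) (f : Disc → ℂ) : Prop := ∀ z : Disc, HasSum (fun n : ℕ => B c n * (z : ℂ) ^ (8 ^ n)) (f z)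

lemma hasSum_Al (c : ℕ → ℂ) (z a : ℂ) :
    HasSum (fun j => Al c j * z ^ j) a ↔ HasSum (fun n : ℕ => B c n * z ^ (8 ^ n)) a := by
  rw [← Function.Injective.hasSum_iff inj8 (f := fun j => Al c j * z ^ j)]
  · have : ((fun j => Al c j * z ^ j) ∘ fun n : ℕ => 8 ^ n) = fun n : ℕ => B c n * z ^ (8 ^ n) := by
      funext n
      simp only [Function.comp, Al]
      rw [inj8.extend_apply]
    rw [this]
  · intro j hj
    have : Al c j = 0 := by
      rw [Al, Function.extend_apply' _ _ _ (by simpa using hj)]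
      rfl
    rw [this, zero_mul]

lemma coeff_Rep (c : ℕ → ℂ) (f : Disc → ℂ) (F : ℂ → ℂ) (hFf : ∀ z : Disc, F z = f z)
    (h : Rep c f) (j : ℕ) : iteratedDeriv j F 0 = (j.factorial : ℂ) * Al c j := by
  apply coeff_unique
  intro z hz
  rw [hasSum_Al]
  have := h ⟨z, by simpa using hz⟩
  rw [← hFf] at this
  exact this

lemma Al_pow (c : ℕ → ℂ) (n : ℕ) : Al c (8 ^ n) = B c n := by
  rw [Al]; exact inj8.extend_apply _ _ _

lemma Rep_add {c c' : ℕ → ℂ} {f g : Disc → ℂ} (hf : Rep c f) (hg : Rep c' g) :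
    Rep (c + c') (f + g) := by
  intro z
  have := (hf z).add (hg z)
  refine this.congr_fun (fun n => ?_)
  simp only [B, Pi.add_apply]; ring

lemma Rep_smul {c : ℕ → ℂ} {f : Disc → ℂ} (a : ℂ) (hf : Rep c f) :
    Rep (a • c) (a • f) := by
  intro z
  have := (hf z).mul_left a
  refine this.congr_fun (fun n => ?_)
  simp only [B, Pi.smul_apply, smul_eq_mul]; ring

lemma Rep_zero : Rep 0 0 := by
  intro z
  simp only [B, Pi.zero_apply, zero_mul]
  exact hasSum_zero

/-- The subspace `M`. -/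
def M : Submodule ℂ HD where
  carrier := {f | ∃ c : ℕ → ℂ, Rep c (f : C(Disc, ℂ))}
  add_mem' := by
    rintro f g ⟨c, hc⟩ ⟨c', hc'⟩
    exact ⟨c + c', Rep_add hc hc'⟩
  zero_mem' := ⟨0, Rep_zero⟩
  smul_mem' := by
    rintro a f ⟨c, hc⟩
    exact ⟨a • c, Rep_smul a hc⟩

/-- a holomorphic extension by definition of `HD` -/
noncomputable def ext (f : HD) : ℂ → ℂ := Classical.choose f.2

lemma ext_diff (f : HD) : DifferentiableOn ℂ (ext f) (Metric.ball 0 1) :=
  (Classical.choose_spec f.2).1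

lemma ext_eq (f : HD) (z : Disc) : ext f z = (f : C(Disc, ℂ)) z :=
  (Classical.choose_spec f.2).2 z

instance : LocallyCompactSpace Disc := Metric.isOpen_ball.locallyCompactSpace

lemma tendsto_coeff (f : HD) (φ : Filter HD) (h : Tendsto (fun g : HD => (g : C(Disc, ℂ))) φ (𝓝 (f : C(Disc, ℂ)))) (j : ℕ) :
    Tendsto (fun g : HD => iteratedDeriv j (ext g) 0) φ (𝓝 (iteratedDeriv j (ext f) 0)) := by
  rw [ContinuousMap.tendsto_iff_tendstoLocallyUniformly] at h
  have h1 : TendstoLocallyUniformlyOn (fun g : HD => ext g) (ext f) φ (Metric.ball 0 1) := by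
    rw [tendstoLocallyUniformlyOn_iff_tendstoLocallyUniformly_comp_coe]
    have e1 : (fun (i : HD) (x : Disc) => ext i x) = fun (i : HD) (x : Disc) => (i : C(Disc, ℂ)) x := by
      funext i x; exact ext_eq i x
    have e2 : ext f ∘ (Subtype.val : Disc → ℂ) = fun x => (f : C(Disc, ℂ)) x := by
      funext x; exact ext_eq f x
    rw [e1, e2]
    exact h
  have h2 : ∀ j, TendstoLocallyUniformlyOn (fun g : HD => iteratedDeriv j (ext g)) (iteratedDeriv j (ext f)) φ (Metric.ball 0 1) ∧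
      ∀ g : HD, DifferentiableOn ℂ (iteratedDeriv j (ext g)) (Metric.ball 0 1) := by
    intro j
    induction j with
    | zero =>
      simp only [iteratedDeriv_zero]
      exact ⟨h1, fun g => ext_diff g⟩
    | succ n ih =>
      simp only [iteratedDeriv_succ]
      exact ⟨ih.1.deriv (Eventually.of_forall ih.2) Metric.isOpen_ball,
        fun g => (ih.2 g).deriv Metric.isOpen_ball⟩
  exact (h2 j).1.tendsto_at (by simp)

theorem isClosed_M : IsClosed (M : Set HD) := by
  rw [← closure_subset_iff_isClosed]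
  intro f hf
  have hne : (𝓝[(M : Set HD)] f).NeBot := mem_closure_iff_nhdsWithin_neBot.mp hf
  set φ := 𝓝[(M : Set HD)] f with hφ
  have hmem : ∀ᶠ g in φ, g ∈ M := eventually_mem_nhdsWithin
  have htend : Tendsto (fun g : HD => (g : C(Disc, ℂ))) φ (𝓝 (f : C(Disc, ℂ))) :=
    (continuous_subtype_val.tendsto f).mono_left nhdsWithin_le_nhds
  have hco := tendsto_coeff f φ htend
  -- coefficients off the gaps vanish
  have hoff : ∀ j, j ∉ range (fun n : ℕ => 8 ^ n) → iteratedDeriv j (ext f) 0 = 0 := by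
    intro j hj
    refine tendsto_nhds_unique (hco j) ?_
    refine Tendsto.congr' ?_ tendsto_const_nhds
    filter_upwards [hmem] with g hg
    obtain ⟨c, hc⟩ := hg
    rw [coeff_Rep c _ (ext g) (ext_eq g) hc j, Al, Function.extend_apply' _ _ _ (by simpa using hj)]
    simp
  -- normalized coefficients
  set Q : ℕ → HD → ℂ := fun n g => iteratedDeriv (8 ^ n) (ext g) 0 / ((8 ^ n).factorial : ℂ) / ((Real.exp (3 ^ n) : ℝ) : ℂ) with hQ
  have hQt : ∀ n, Tendsto (Q n) φ (𝓝 (Q n f)) := fun n => ((hco (8 ^ n)).div_const _).div_const _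
  have hexp : ∀ n : ℕ, ((Real.exp (3 ^ n) : ℝ) : ℂ) ≠ 0 := fun n => by
    exact_mod_cast (Real.exp_pos _).ne'
  have hQM : ∀ g ∈ M, ∀ n, ∀ c, Rep c (g : C(Disc, ℂ)) → Q n g = c n.unpair.1 := by
    intro g hg n c hc
    simp only [hQ]
    rw [coeff_Rep c _ (ext g) (ext_eq g) hc (8 ^ n), Al_pow, B]
    have h1 : ((8 ^ n).factorial : ℂ) ≠ 0 := by exact_mod_cast (Nat.factorial_pos _).ne'
    have h2 := hexp n
    field_simp
  have hQeq : ∀ n n' : ℕ, n.unpair.1 = n'.unpair.1 → Q n f = Q n' f := by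
    intro n n' hnn
    refine tendsto_nhds_unique (hQt n) ?_
    refine Tendsto.congr' ?_ (hQt n')
    filter_upwards [hmem] with g hg
    obtain ⟨c, hc⟩ := hg
    rw [hQM g ⟨c, hc⟩ n c hc, hQM g ⟨c, hc⟩ n' c hc, hnn]
  refine ⟨fun k => Q (Nat.pair k 0) f, fun z => ?_⟩
  have hT := Complex.hasSum_taylorSeries_on_ball (ext_diff f) z.2
  rw [ext_eq] at hT
  rw [← Function.Injective.hasSum_iff inj8] at hT
  · refine hT.congr_fun (fun n => ?_)
    simp only [Function.comp, B, sub_zero, smul_eq_mul]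
    have h1 : Q (Nat.pair n.unpair.1 0) f = Q n f := hQeq _ _ (by simp)
    rw [h1]
    simp only [hQ]
    have h1 : ((8 ^ n).factorial : ℂ) ≠ 0 := by exact_mod_cast (Nat.factorial_pos _).ne'
    have h2 := hexp n
    field_simp
  · intro j hj
    rw [hoff j hj]
    simp

lemma summable_aux (r : ℝ) (hr0 : 0 ≤ r) (hr : r < 1) :
    Summable (fun n : ℕ => Real.exp (3 ^ n) * r ^ (8 ^ n)) := by
  rcases hr0.eq_or_lt with h | h
  · subst h
    have : (fun n : ℕ => Real.exp (3 ^ n) * (0 : ℝ) ^ (8 ^ n)) = fun _ => 0 := by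
      funext n; rw [zero_pow (by positivity), mul_zero]
    rw [this]; exact summable_zero
  set s := -Real.log r with hs
  have hs0 : 0 < s := by rw [hs]; linarith [Real.log_neg h hr]
  have hr' : r = Real.exp (-s) := by rw [hs, neg_neg, Real.exp_log h]
  have h1 : Tendsto (fun n : ℕ => (3 / 8 : ℝ) ^ n + (n : ℝ) / 8 ^ n) atTop (𝓝 0) := by
    have h2 := tendsto_pow_atTop_nhds_zero_of_lt_one (r := (3 / 8 : ℝ)) (by norm_num) (by norm_num)
    have h3 := tendsto_pow_const_div_const_pow_of_one_lt 1 (r := (8 : ℝ)) (by norm_num)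
    simpa using h2.add h3
  have h4 := (tendsto_order.1 h1).2 s hs0
  refine Summable.of_norm_bounded_eventually_nat (g := fun n : ℕ => Real.exp (-(n : ℝ))) ?_ ?_
  · have := summable_geometric_of_lt_one (Real.exp_pos (-1)).le (by rw [Real.exp_lt_one_iff]; norm_num)
    refine this.congr (fun n => ?_)
    rw [← Real.exp_nat_mul]; congr 1; ring
  · filter_upwards [h4] with n hn
    rw [Real.norm_eq_abs, abs_of_nonneg (by positivity), hr', ← Real.exp_nat_mul, ← Real.exp_add]
    apply Real.exp_le_exp.mpr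
    push_cast
    have h8 : (0 : ℝ) < 8 ^ n := by positivity
    have h5 : (3 / 8 : ℝ) ^ n + (n : ℝ) / 8 ^ n = (3 ^ n + n) / 8 ^ n := by rw [div_pow]; ring
    rw [h5, div_lt_iff₀ h8] at hn
    linarith

/-- the function with multiplier sequence `single k 1` -/
noncomputable def gfun (k : ℕ) (z : ℂ) : ℂ := ∑' n : ℕ, B (Pi.single k 1) n * z ^ (8 ^ n)

lemma B_bound (k n : ℕ) : ‖B (Pi.single k 1) n‖ ≤ Real.exp (3 ^ n) := by
  rw [B, norm_mul, Complex.norm_real, Real.norm_eq_abs, abs_of_pos (Real.exp_pos _)]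
  have : ‖(Pi.single k 1 : ℕ → ℂ) n.unpair.1‖ ≤ 1 := by
    rw [Pi.single_apply]; split_ifs <;> simp
  calc _ ≤ 1 * Real.exp (3 ^ n) := by gcongr
    _ = _ := one_mul _

lemma gfun_diff (k : ℕ) : DifferentiableOn ℂ (gfun k) (Metric.ball 0 1) := by
  intro z hz
  have hz' : ‖z‖ < 1 := by simpa using hz
  obtain ⟨r, hr1, hr2⟩ := exists_between hz'
  have hr0 : 0 ≤ r := (norm_nonneg z).trans hr1.le
  have h1 : DifferentiableOn ℂ (gfun k) (Metric.ball 0 r) := by
    apply Complex.differentiableOn_tsum_of_summable_norm (summable_aux r hr0 hr2)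
    · intro n
      exact (differentiable_id.pow _).const_mul _ |>.differentiableOn
    · exact Metric.isOpen_ball
    · intro n w hw
      have hw' : ‖w‖ < r := by simpa using hw
      rw [norm_mul, norm_pow]
      have := B_bound k n
      gcongr
  exact (h1.differentiableAt (Metric.isOpen_ball.mem_nhds (by simpa using hr1))).differentiableWithinAt

lemma gfun_hasSum (k : ℕ) (z : ℂ) (hz : ‖z‖ < 1) :
    HasSum (fun n : ℕ => B (Pi.single k 1) n * z ^ (8 ^ n)) (gfun k z) := by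
  apply Summable.hasSum
  refine Summable.of_norm_bounded (summable_aux ‖z‖ (norm_nonneg _) hz) (fun n => ?_)
  rw [norm_mul, norm_pow]
  have := B_bound k n
  gcongr

/-- as an element of `HD` -/
noncomputable def gHD (k : ℕ) : HD :=
  ⟨⟨fun z : Disc => gfun k z, (gfun_diff k).continuousOn.domRestrict⟩, ⟨gfun k, gfun_diff k, fun _ => rfl⟩⟩

lemma gHD_rep (k : ℕ) : Rep (Pi.single k 1) ((gHD k : HD) : C(Disc, ℂ)) := by
  intro z
  exact gfun_hasSum k z (by have := z.2; rwa [mem_ball_zero_iff] at this)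

lemma rep_zero_unique (c : ℕ → ℂ) (f : Disc → ℂ) (hf : ∀ z, f z = 0) (h : Rep c f) (k : ℕ) : c k = 0 := by
  have h1 := coeff_Rep c f (fun _ => 0) (fun z => (hf z).symm) h (8 ^ (Nat.pair k 0))
  rw [Al_pow, B, Nat.unpair_pair] at h1
  simp only [iteratedDeriv_fun_const_zero] at h1
  have h2 : ((8 ^ (Nat.pair k 0)).factorial : ℂ) ≠ 0 := by exact_mod_cast (Nat.factorial_pos _).ne'
  have h3 : ((Real.exp (3 ^ (Nat.pair k 0)) : ℝ) : ℂ) ≠ 0 := by exact_mod_cast (Real.exp_pos _).ne'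
  have h4 := h1.symm
  rw [mul_eq_zero, mul_eq_zero] at h4
  rcases h4 with h4 | h4 | h4
  · exact absurd h4 h2
  · exact h4
  · exact absurd h4 h3

/-- the inclusion of `M` into the space of all functions -/
noncomputable def inclM : M →ₗ[ℂ] (Disc → ℂ) where
  toFun m := (((m : HD) : C(Disc, ℂ)) : Disc → ℂ)
  map_add' _ _ := rfl
  map_smul' _ _ := rfl

theorem linInd_gfun : LinearIndependent ℂ (fun k : ℕ => (fun z : Disc => gfun k z)) := by
  rw [linearIndependent_iff']
  intro s a hs i hi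
  have h1 : Rep (∑ k ∈ s, a k • (Pi.single k 1 : ℕ → ℂ)) (∑ k ∈ s, a k • (fun z : Disc => gfun k z)) := by
    clear hs hi
    induction s using Finset.induction_on with
    | empty => simpa using Rep_zero
    | insert k s hk ih =>
      rw [Finset.sum_insert hk, Finset.sum_insert hk]
      exact Rep_add (Rep_smul _ (gHD_rep k)) ih
  have h4 := rep_zero_unique _ _ (fun z => congrFun hs z) h1 i
  rw [Finset.sum_apply, Finset.sum_eq_single i] at h4
  · simpa using h4
  · intro b _ hb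
    simp [Ne.symm hb]
  · intro h; exact absurd hi h

theorem strongly_annular_of_mem (f : HD) (hf : f ∈ M) (hne : f ≠ 0) :
    StronglyAnnular (f : C(Disc, ℂ)) := by
  obtain ⟨c, hc⟩ := hf
  obtain ⟨k, hk⟩ : ∃ k, c k ≠ 0 := by
    by_contra h
    push Not at h
    apply hne
    apply Subtype.ext
    ext z
    have h0 : c = 0 := funext h
    rw [h0] at hc
    exact (hc z).unique (Rep_zero z)
  have hsum : ∀ z : ℂ, ‖z‖ < 1 → Summable (fun n => B c n * z ^ (8 ^ n)) := fun z hz =>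
    (hc ⟨z, by simpa using hz⟩).summable
  have hgrow : ∀ N : ℕ, ∃ n, N ≤ n ∧ ‖c k‖ * Real.exp (3 ^ n) ≤ ‖B c n‖ := by
    intro N
    refine ⟨Nat.pair k N, Nat.right_le_pair k N, ?_⟩
    rw [B, Nat.unpair_pair, norm_mul, Complex.norm_real, Real.norm_eq_abs, abs_of_pos (Real.exp_pos _)]
  unfold StronglyAnnular
  apply ENNReal.eq_top_of_forall_nnreal_le
  intro C
  apply le_limsup_of_frequently_le'
  rw [(nhdsLT_basis (1 : ℝ)).frequently_iff]
  intro ρ hρ
  obtain ⟨r, h1, h2, h3, h4⟩ := annular (B c) hsum ‖c k‖ (norm_pos_iff.mpr hk) hgrow C ρ hρ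
  refine ⟨r, ⟨h1, h3⟩, ?_⟩
  apply le_iInf
  rintro ⟨z, hz⟩
  have h5 := h4 z hz
  rw [(hc z).tsum_eq] at h5
  rw [enorm_eq_nnnorm]
  exact_mod_cast h5

open Classical in
/-- extension by zero -/
noncomputable def E0 (g : C(Disc, ℂ)) : ℂ → ℂ := fun z => if h : z ∈ Metric.ball (0 : ℂ) 1 then g ⟨z, h⟩ else 0

lemma E0_eq (g : C(Disc, ℂ)) (z : Disc) : E0 g z = g z := by
  rw [E0, dif_pos z.2]

lemma E0_diff (g : C(Disc, ℂ)) (hg : g ∈ HD) : DifferentiableOn ℂ (E0 g) (Metric.ball 0 1) := by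
  obtain ⟨F, hF, hFg⟩ := hg
  refine hF.congr (fun z hz => ?_)
  rw [E0_eq g ⟨z, hz⟩, ← hFg]

/-- The subspace as a space of functions on the disc. -/
noncomputable def M' : Submodule ℂ (Disc → ℂ) := LinearMap.range inclM

lemma mem_M' (g : C(Disc, ℂ)) : (g : Disc → ℂ) ∈ M' ↔ ∃ h : g ∈ HD, (⟨g, h⟩ : HD) ∈ M := by
  constructor
  · rintro ⟨m, hm⟩
    have : ((m : HD) : C(Disc, ℂ)) = g := DFunLike.coe_injective hm
    subst this
    exact ⟨(m : HD).2, m.2⟩
  · rintro ⟨h, hM⟩
    exact ⟨⟨⟨g, h⟩, hM⟩, rfl⟩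

theorem isClosed_M' : IsClosed {g : C(Disc, ℂ) | (g : Disc → ℂ) ∈ M'} := by
  set S : Set C(Disc, ℂ) := {g : C(Disc, ℂ) | (g : Disc → ℂ) ∈ M'} with hS
  have hSM : S = (Subtype.val : HD → C(Disc, ℂ)) '' (M : Set HD) := by
    ext g
    rw [hS, mem_ofPred_eq, mem_M']
    constructor
    · rintro ⟨h, hM⟩; exact ⟨⟨g, h⟩, hM, rfl⟩
    · rintro ⟨m, hm, rfl⟩; exact ⟨m.2, hm⟩
  rw [← closure_subset_iff_isClosed]
  intro f hf
  have hHD : f ∈ HD := by
    have hne : (𝓝[S] f).NeBot := mem_closure_iff_nhdsWithin_neBot.mp hf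
    have hmem : ∀ᶠ g in 𝓝[S] f, g ∈ S := eventually_mem_nhdsWithin
    have htend : Tendsto (fun g : C(Disc, ℂ) => g) (𝓝[S] f) (𝓝 f) := nhdsWithin_le_nhds
    rw [ContinuousMap.tendsto_iff_tendstoLocallyUniformly] at htend
    have h1 : TendstoLocallyUniformlyOn (fun g : C(Disc, ℂ) => E0 g) (E0 f) (𝓝[S] f) (Metric.ball 0 1) := by
      rw [tendstoLocallyUniformlyOn_iff_tendstoLocallyUniformly_comp_coe]
      have e1 : (fun (i : C(Disc, ℂ)) (x : Disc) => E0 i x) = fun (i : C(Disc, ℂ)) (x : Disc) => i x := by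
        funext i x; exact E0_eq i x
      have e2 : E0 f ∘ (Subtype.val : Disc → ℂ) = fun x => f x := by
        funext x; exact E0_eq f x
      rw [e1, e2]
      exact htend
    have h2 : DifferentiableOn ℂ (E0 f) (Metric.ball 0 1) := by
      refine h1.differentiableOn ?_ Metric.isOpen_ball
      filter_upwards [hmem] with g hg
      rw [hS, mem_ofPred_eq, mem_M'] at hg
      exact E0_diff g hg.choose
    exact ⟨E0 f, h2, E0_eq f⟩
  have h3 : (⟨f, hHD⟩ : HD) ∈ closure (M : Set HD) := by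
    rw [closure_subtype, ← hSM]
    exact hf
  rw [isClosed_M.closure_eq] at h3
  rw [hS, mem_ofPred_eq, mem_M']
  exact ⟨hHD, h3⟩

theorem not_finDim' : ¬ FiniteDimensional ℂ M' := by
  intro hfin
  have hli : LinearIndependent ℂ (fun k : ℕ => (⟨fun z : Disc => gfun k z,
      ⟨⟨gHD k, ⟨Pi.single k 1, gHD_rep k⟩⟩, rfl⟩⟩ : M')) :=
    LinearIndependent.of_comp M'.subtype linInd_gfun
  have := hli.finite
  exact not_finite ℕ

theorem holo_of_mem (f : Disc → ℂ) (hf : f ∈ M') : Holo f := by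
  obtain ⟨m, rfl⟩ := hf
  exact (m : HD).2

theorem sa_of_mem (f : Disc → ℂ) (hf : f ∈ M') (hne : f ≠ 0) : StronglyAnnular f := by
  obtain ⟨m, rfl⟩ := hf
  refine strongly_annular_of_mem m m.2 (fun h => hne ?_)
  have : m = 0 := Subtype.ext h
  rw [this, map_zero]

end Pool.Agent.Fdf3ca
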